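import Pool.Agent.SZT.StmtsB

/-!
# SZT, row IMU
-/

noncomputable section

open Polynomial H58Q

namespace Pool.Agent.SZT.H31

open Pool.Agent.SZT.B

theorem evq_add {K L : Type} [Field K] [NormedField L] (φ : K →+* L) {f : K[X]} (u v : Q K f)
    (x₀ y₀ : L) : evq φ (u + v) x₀ y₀ = evq φ u x₀ y₀ + evq φ v x₀ y₀ := by
  unfold evq
  rw [QuadraticAlgebra.re_add, QuadraticAlgebra.im_add, eval₂_add, eval₂_add]
  ring

theorem evq_mul {K L : Type} [Field K] [NormedField L] (φ : K →+* L) {f : K[X]} (u v : Q K f)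
    (x₀ y₀ : L) (h : y₀ ^ 2 = (f.map φ).eval x₀) :
    evq φ (u * v) x₀ y₀ = evq φ u x₀ y₀ * evq φ v x₀ y₀ := by
  unfold evq
  rw [eval_map] at h
  rw [QuadraticAlgebra.re_mul, QuadraticAlgebra.im_mul]
  simp only [eval₂_add, eval₂_mul, eval₂_zero, zero_mul, add_zero]
  rw [← h]
  ring

theorem norm_eval₂_le {K L : Type} [Field K] [NormedField L] (φ : K →+* L) (p : K[X]) (x₀ : L)
    (hx : ‖x₀‖ ≤ 1) : ‖p.eval₂ φ x₀‖ ≤ ∑ i ∈ p.support, ‖φ (p.coeff i)‖ := by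
  rw [eval₂_eq_sum, Polynomial.sum]
  refine (norm_sum_le _ _).trans (Finset.sum_le_sum (fun i _ => ?_))
  rw [norm_mul, norm_pow]
  calc ‖φ (p.coeff i)‖ * ‖x₀‖ ^ i ≤ ‖φ (p.coeff i)‖ * 1 :=
        mul_le_mul_of_nonneg_left (pow_le_one₀ (norm_nonneg _) hx) (norm_nonneg _)
    _ = _ := mul_one _

theorem ann_near {L : Type} [NormedField L] [IsUltrametricDist L] {r : ℝ} {X X₁ : L}
    (h : Ann r X₁) (hX : ‖X - X₁‖ < ‖X₁‖) : Ann r X := by
  have h1 : ‖X‖ = ‖X₁‖ := by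
    have h2 : ‖X‖ ≤ ‖X₁‖ := by
      have h3 := IsUltrametricDist.norm_add_le_max (X - X₁) X₁
      rw [sub_add_cancel] at h3
      exact h3.trans (max_le hX.le le_rfl)
    refine le_antisymm h2 ?_
    by_contra hlt
    push Not at hlt
    have h3 := IsUltrametricDist.norm_add_le_max (X₁ - X) X
    rw [sub_add_cancel, norm_sub_rev] at h3
    exact absurd h3 (not_le.2 (max_lt hX hlt))
  unfold Ann at *
  rw [h1]
  exact h

/-- **IMU** -/
theorem imu (_nod : NodStmt) (cht : ChtStmt) : ImuStmt := by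
  intro K L _ _ _ _ φ f θ s X₁ hN hs hA
  obtain ⟨hc, -, -⟩ := cht L (f.map φ) θ s hN hs
  have hpos : 0 < ‖X₁‖ := lt_of_le_of_lt (norm_nonneg _) hA.1
  constructor
  · intro I J m n hI hJ u hu
    refine Submodule.mul_induction_on hu (fun a ha b hb => ?_) (fun a b ha hb => ?_)
    · obtain ⟨C1, d1, hd1, h1⟩ := hI a ha
      obtain ⟨C2, d2, hd2, h2⟩ := hJ b hb
      refine ⟨C1 * C2, min (min d1 d2) ‖X₁‖, by positivity, fun X hne hX => ?_⟩
      have hX1 : ‖X - X₁‖ < d1 := lt_of_lt_of_le hX ((min_le_left _ _).trans (min_le_left _ _))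
      have hX2 : ‖X - X₁‖ < d2 := lt_of_lt_of_le hX ((min_le_left _ _).trans (min_le_right _ _))
      have hX3 : ‖X - X₁‖ < ‖X₁‖ := lt_of_lt_of_le hX (min_le_right _ _)
      have hAX := ann_near hA hX3
      have hy := (hc X hAX).2.1
      have e1 := h1 X hne hX1
      have e2 := h2 X hne hX2
      simp only at e1 e2 ⊢
      rw [evq_mul φ a b _ _ hy, norm_mul, pow_add]
      calc ‖evq φ a (xx θ X) (yy θ s X)‖ * ‖evq φ b (xx θ X) (yy θ s X)‖
          ≤ (C1 * ‖X - X₁‖ ^ m) * (C2 * ‖X - X₁‖ ^ n) :=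
            mul_le_mul e1 e2 (norm_nonneg _) ((norm_nonneg _).trans e1)
        _ = C1 * C2 * (‖X - X₁‖ ^ m * ‖X - X₁‖ ^ n) := by ring
    · obtain ⟨C1, d1, hd1, h1⟩ := ha
      obtain ⟨C2, d2, hd2, h2⟩ := hb
      refine ⟨C1 + C2, min d1 d2, by positivity, fun X hne hX => ?_⟩
      have hX1 : ‖X - X₁‖ < d1 := lt_of_lt_of_le hX (min_le_left _ _)
      have hX2 : ‖X - X₁‖ < d2 := lt_of_lt_of_le hX (min_le_right _ _)
      have e1 := h1 X hne hX1
      have e2 := h2 X hne hX2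
      simp only at e1 e2 ⊢
      rw [evq_add]
      refine (norm_add_le _ _).trans ?_
      rw [add_mul]
      exact add_le_add e1 e2
  · intro I u _
    refine ⟨∑ i ∈ u.re.support, ‖φ (u.re.coeff i)‖ + ∑ i ∈ u.im.support, ‖φ (u.im.coeff i)‖,
      ‖X₁‖, hpos, fun X _ hX => ?_⟩
    have hAX := ann_near hA hX
    obtain ⟨-, -, hy, -, hA', -, -, -, hx, -⟩ := hc X hAX
    have hy1 : ‖yy θ s X‖ ≤ 1 := by
      rw [hy, sub_eq_add_neg]
      refine (IsUltrametricDist.norm_add_le_max _ _).trans (max_le hAX.2.le ?_)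
      rw [norm_neg]
      exact hA'.2.le
    simp only [pow_zero, mul_one]
    unfold evq
    refine (norm_add_le _ _).trans (add_le_add (norm_eval₂_le φ _ _ hx) ?_)
    rw [norm_mul]
    calc ‖u.im.eval₂ φ (xx θ X)‖ * ‖yy θ s X‖ ≤ ‖u.im.eval₂ φ (xx θ X)‖ * 1 :=
          mul_le_mul_of_nonneg_left hy1 (norm_nonneg _)
      _ = ‖u.im.eval₂ φ (xx θ X)‖ := mul_one _
      _ ≤ _ := norm_eval₂_le φ _ _ hx

end Pool.Agent.SZT.H31
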